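import Pool.Agent.H630VC.PM1

/-! Linear programs with a large gap are hard for circuits of monotone real gates: the reduction
from bipartite matching. -/

set_option autoImplicit false

open scoped Classical
open Finset H630VC Filter

namespace Pool.Agent.V11231.LPG

/-- the rows of the system -/
abbrev Row (n : ℕ) : Type := Option ((Fin n × Fin n) ⊕ ((Fin n × Fin n) ⊕ (Fin n ⊕ Fin n)))

/-- the matrix of the system -/
noncomputable def mat (n : ℕ) : Matrix (Row n) (Fin n × Fin n) ℝ := fun r e =>
  match r with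
  | none => -1
  | some (Sum.inl p) => if e = p then 1 else 0
  | some (Sum.inr (Sum.inl p)) => if e = p then -1 else 0
  | some (Sum.inr (Sum.inr (Sum.inl i))) => if e.1 = i then 1 else 0
  | some (Sum.inr (Sum.inr (Sum.inr j))) => if e.2 = j then 1 else 0

/-- the right-hand side of a bipartite graph -/
noncomputable def rhs {n : ℕ} (E : Fin n → Fin n → Prop) : Row n → ℝ := fun r =>
  match r with
  | none => -(n : ℝ)
  | some (Sum.inl p) => if E p.1 p.2 then 1 else 0
  | some (Sum.inr (Sum.inl _)) => 0
  | some (Sum.inr (Sum.inr _)) => 1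

lemma mat_entry (n : ℕ) (r : Row n) (e : Fin n × Fin n) :
    mat n r e = -1 ∨ mat n r e = 0 ∨ mat n r e = 1 := by
  unfold mat
  rcases r with _ | p | p | i | j
  · exact Or.inl rfl
  all_goals
    simp only
    split_ifs
    all_goals simp

lemma mulVec_none (n : ℕ) (x : Fin n × Fin n → ℝ) : (mat n).mulVec x none = -∑ e, x e := by
  unfold Matrix.mulVec dotProduct mat
  simp

lemma mulVec_cap (n : ℕ) (x : Fin n × Fin n → ℝ) (p : Fin n × Fin n) :
    (mat n).mulVec x (some (Sum.inl p)) = x p := by
  unfold Matrix.mulVec dotProduct mat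
  simp

lemma mulVec_nonneg (n : ℕ) (x : Fin n × Fin n → ℝ) (p : Fin n × Fin n) :
    (mat n).mulVec x (some (Sum.inr (Sum.inl p))) = -x p := by
  unfold Matrix.mulVec dotProduct mat
  simp

lemma mulVec_left (n : ℕ) (x : Fin n × Fin n → ℝ) (i : Fin n) :
    (mat n).mulVec x (some (Sum.inr (Sum.inr (Sum.inl i)))) = ∑ j, x (i, j) := by
  unfold Matrix.mulVec dotProduct mat
  simp only [ite_mul, one_mul, zero_mul]
  rw [Fintype.sum_prod_type]
  rw [Finset.sum_eq_single i]
  · simp
  · intro b _ hb
    simp [hb]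
  · simp

lemma mulVec_right (n : ℕ) (x : Fin n × Fin n → ℝ) (j : Fin n) :
    (mat n).mulVec x (some (Sum.inr (Sum.inr (Sum.inr j)))) = ∑ i, x (i, j) := by
  unfold Matrix.mulVec dotProduct mat
  simp only [ite_mul, one_mul, zero_mul]
  rw [Fintype.sum_prod_type_right]
  rw [Finset.sum_eq_single j]
  · simp
  · intro b _ hb
    simp [hb]
  · simp

/-- a perfect matching is a solution -/
lemma solvable_of_perfect {n : ℕ} {E : Fin n → Fin n → Prop} (h : HasPerfect E) :
    ∃ x : Fin n × Fin n → ℝ, ∀ r, (mat n).mulVec x r ≤ rhs E r := by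
  obtain ⟨π, hπ⟩ := h
  refine ⟨fun e => if e.2 = π e.1 then 1 else 0, ?_⟩
  rintro (_ | p | p | i | j)
  · rw [mulVec_none]
    unfold rhs
    simp only
    rw [Fintype.sum_prod_type]
    simp
  · rw [mulVec_cap]
    unfold rhs
    simp only
    split_ifs with h1 h2 h2
    · exact le_rfl
    · exact absurd (h1 ▸ hπ p.1) h2
    · exact zero_le_one
    · exact le_rfl
  · rw [mulVec_nonneg]
    unfold rhs
    simp only
    split_ifs <;> simp
  · rw [mulVec_left]
    unfold rhs
    simp
  · rw [mulVec_right]
    unfold rhs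
    simp only
    have h1 : ∀ i : Fin n, (j = π i) ↔ (i = π.symm j) := fun i => by
      rw [Equiv.eq_symm_apply]
      exact eq_comm
    simp only [h1]
    simp

/-- if all matchings are small then the value of the linear program is small -/
lemma value_le {n : ℕ} {E : Fin n → Fin n → Prop} {t : ℝ} (h : MatchingsLe t E)
    (x : Fin n × Fin n → ℝ) (hx : ∀ r, r ≠ none → (mat n).mulVec x r ≤ rhs E r) :
    ∑ e, x e ≤ 2 * t := by
  have hcap : ∀ p : Fin n × Fin n, x p ≤ if E p.1 p.2 then 1 else 0 := fun p => by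
    have h1 := hx (some (Sum.inl p)) (by simp)
    rw [mulVec_cap] at h1
    exact h1
  have hnn : ∀ p : Fin n × Fin n, 0 ≤ x p := fun p => by
    have h1 := hx (some (Sum.inr (Sum.inl p))) (by simp)
    rw [mulVec_nonneg] at h1
    have h2 : (-x p) ≤ 0 := h1
    linarith
  have hl : ∀ i, ∑ j, x (i, j) ≤ 1 := fun i => by
    have h1 := hx (some (Sum.inr (Sum.inr (Sum.inl i)))) (by simp)
    rw [mulVec_left] at h1
    exact h1
  have hr : ∀ j, ∑ i, x (i, j) ≤ 1 := fun j => by
    have h1 := hx (some (Sum.inr (Sum.inr (Sum.inr j)))) (by simp)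
    rw [mulVec_right] at h1
    exact h1
  let Q : Finset (Fin n × Fin n) → Prop := fun M => (∀ e ∈ M, E e.1 e.2) ∧
    ∀ e ∈ M, ∀ e' ∈ M, e.1 = e'.1 ∨ e.2 = e'.2 → e = e'
  obtain ⟨M, hM, hmax⟩ := Finset.exists_max_image (univ.filter Q) Finset.card
    ⟨∅, by simp [Q]⟩
  rw [Finset.mem_filter] at hM
  obtain ⟨-, hM1, hM2⟩ := hM
  have hMt : (M.card : ℝ) ≤ t := h M hM1 hM2
  set I : Finset (Fin n) := M.image Prod.fst with hI
  set J : Finset (Fin n) := M.image Prod.snd with hJ
  have hIc : (I.card : ℝ) ≤ M.card := by exact_mod_cast Finset.card_image_le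
  have hJc : (J.card : ℝ) ≤ M.card := by exact_mod_cast Finset.card_image_le
  have hcov : ∀ e : Fin n × Fin n, E e.1 e.2 → e.1 ∈ I ∨ e.2 ∈ J := by
    intro e he
    by_contra hcon
    push Not at hcon
    have heM : e ∉ M := fun h1 => hcon.1 (Finset.mem_image_of_mem _ h1)
    have hQ : Q (insert e M) := by
      refine ⟨fun e' he' => ?_, fun e' he' e'' he'' hh => ?_⟩
      · rcases Finset.mem_insert.1 he' with rfl | h1
        · exact he
        · exact hM1 _ h1
      · rcases Finset.mem_insert.1 he' with rfl | h1 <;> rcases Finset.mem_insert.1 he'' with rfl | h2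
        · rfl
        · exfalso
          rcases hh with hh | hh
          · exact hcon.1 (hh ▸ Finset.mem_image_of_mem Prod.fst h2)
          · exact hcon.2 (hh ▸ Finset.mem_image_of_mem Prod.snd h2)
        · exfalso
          rcases hh with hh | hh
          · exact hcon.1 (hh ▸ Finset.mem_image_of_mem Prod.fst h1)
          · exact hcon.2 (hh ▸ Finset.mem_image_of_mem Prod.snd h1)
        · exact hM2 _ h1 _ h2 hh
    have h1 := hmax (insert e M) (by rw [Finset.mem_filter]; exact ⟨mem_univ _, hQ⟩)
    rw [Finset.card_insert_of_notMem heM] at h1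
    omega
  have hxle : ∀ e : Fin n × Fin n, x e ≤ (if e.1 ∈ I then x e else 0) + (if e.2 ∈ J then x e else 0) := by
    intro e
    by_cases h1 : E e.1 e.2
    · rcases hcov e h1 with h2 | h2
      · rw [if_pos h2]
        have : 0 ≤ (if e.2 ∈ J then x e else 0) := by split_ifs; exacts [hnn e, le_rfl]
        linarith
      · rw [if_pos h2]
        have : 0 ≤ (if e.1 ∈ I then x e else 0) := by split_ifs; exacts [hnn e, le_rfl]
        linarith
    · have h2 := hcap e
      rw [if_neg h1] at h2
      have h3 : 0 ≤ (if e.1 ∈ I then x e else 0) := by split_ifs; exacts [hnn e, le_rfl]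
      have h4 : 0 ≤ (if e.2 ∈ J then x e else 0) := by split_ifs; exacts [hnn e, le_rfl]
      linarith
  have hs1 : ∑ e : Fin n × Fin n, (if e.1 ∈ I then x e else 0) ≤ I.card := by
    rw [Fintype.sum_prod_type]
    calc ∑ i, ∑ j, (if i ∈ I then x (i, j) else 0) ≤ ∑ i, (if i ∈ I then (1 : ℝ) else 0) := by
          refine Finset.sum_le_sum fun i _ => ?_
          by_cases hi : i ∈ I
          · simp only [hi, if_true]
            exact hl i
          · simp [hi]
      _ = I.card := by simp
  have hs2 : ∑ e : Fin n × Fin n, (if e.2 ∈ J then x e else 0) ≤ J.card := by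
    rw [Fintype.sum_prod_type_right]
    calc ∑ j, ∑ i, (if j ∈ J then x (i, j) else 0) ≤ ∑ j, (if j ∈ J then (1 : ℝ) else 0) := by
          refine Finset.sum_le_sum fun j _ => ?_
          by_cases hj : j ∈ J
          · simp only [hj, if_true]
            exact hr j
          · simp [hj]
      _ = J.card := by simp
  calc ∑ e, x e ≤ ∑ e : Fin n × Fin n, ((if e.1 ∈ I then x e else 0) + (if e.2 ∈ J then x e else 0)) :=
        Finset.sum_le_sum fun e _ => hxle e
    _ = ∑ e : Fin n × Fin n, (if e.1 ∈ I then x e else 0) +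
        ∑ e : Fin n × Fin n, (if e.2 ∈ J then x e else 0) := Finset.sum_add_distrib
    _ ≤ 2 * t := by linarith

end Pool.Agent.V11231.LPG
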